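import Mathlib
import Pool.Agent.TH364.KirMain
import Pool.Agent.TH364.KirLower

set_option autoImplicit false

/-!
# A positive-fraction Kirchberger theorem, with the best possible order of `g`
-/

namespace Pool.Agent.Results.MP_ff3a4f_co.KirchbergerSharp

open Finset Filter Topology

/-- points of `ℝ^d` -/
abbrev Pt (d : ℕ) := EuclideanSpace ℝ (Fin d)

/-- Some hyperplane `{x : ⟪a, x⟫ = b}`, `a ≠ 0`, has `P` in one open half-space and `Q` in the other. -/
def Separated {d : ℕ} (P Q : Finset (Pt d)) : Prop :=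
  ∃ (a : Pt d) (b : ℝ), a ≠ 0 ∧ (∀ p ∈ P, b < inner ℝ a p) ∧ (∀ q ∈ Q, inner ℝ a q < b)

/-- General position: every `d + 1` points are affinely independent, i.e. no `d + 1` points lie on a
common hyperplane. -/
def GenPos {d : ℕ} (X : Finset (Pt d)) : Prop :=
  ∀ T ⊆ X, T.card = d + 1 → AffineIndependent ℝ (fun x : T => (x : Pt d))

open Classical in
/-- The good `(d+2)`-subsets `S` of `A ∪ B`: some hyperplane separates `A ∩ S` from `B ∩ S`. -/
noncomputable def goodSets {d : ℕ} (A B : Finset (Pt d)) : Finset (Finset (Pt d)) :=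
  ((A ∪ B).powersetCard (d + 2)).filter (fun S => Separated (A ∩ S) (B ∩ S))

/-- `g` is admissible in dimension `d`: whenever `ε > 0` and `A`, `B` are disjoint `N`-point sets with
`A ∪ B` in general position (`2N ≥ d + 1`, so that this is a condition) and at least
`(1 - ε) * C(2N, d + 2)` good `(d+2)`-subsets, there are `A' ⊆ A` and `B' ⊆ B`, separated by a
hyperplane, each with at least `(1 - g ε) N` points. -/
def Admissible (d : ℕ) (g : ℝ → ℝ) : Prop :=
  ∀ (ε : ℝ), 0 < ε → ∀ (N : ℕ) (A B : Finset (Pt d)), d + 1 ≤ 2 * N → A.card = N → B.card = N →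
    Disjoint A B → GenPos (A ∪ B) →
    (1 - ε) * ((2 * N).choose (d + 2) : ℝ) ≤ ((goodSets A B).card : ℝ) →
    ∃ A' ⊆ A, ∃ B' ⊆ B, Separated A' B' ∧ (1 - g ε) * N ≤ A'.card ∧ (1 - g ε) * N ≤ B'.card

/-- sanity check: the empty set is separated from every finite set (`d ≥ 1`) -/
lemma separated_empty {d : ℕ} (hd : 1 ≤ d) (P : Finset (Pt d)) :
    Separated ∅ P ∧ Separated P ∅ :=
  ⟨Pool.Agent.TH364.Kir.separated_empty_left hd P, Pool.Agent.TH364.Kir.separated_empty_right hd P⟩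

lemma goodSets_eq {d : ℕ} (A B : Finset (Pt d)) :
    goodSets A B = Pool.Agent.TH364.Kir.goodSets A B := rfl

lemma lower (d : ℕ) (hd : 1 ≤ d) (g : ℝ → ℝ) (hg : Admissible d g) (ε : ℝ) (hε : 0 < ε)
    (hε1 : ε ≤ 1) : 1 / 32 * ε ^ (1 / ((d : ℝ) + 1)) ≤ g ε := by
  classical
  obtain ⟨e, rfl⟩ : ∃ e, d = e + 1 := ⟨d - 1, by omega⟩
  set r : ℝ := ε ^ (1 / (((e + 1 : ℕ) : ℝ) + 1)) with hr
  have hr0 : 0 < r := Real.rpow_pos_of_pos hε _
  have hr1 : r ≤ 1 := Real.rpow_le_one hε.le hε1 (by positivity)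
  have hrε : r ^ (e + 2) = ε := by
    rw [hr, ← Real.rpow_natCast, ← Real.rpow_mul hε.le]
    push_cast
    have : 1 / ((e : ℝ) + 1 + 1) * (e + 2) = 1 := by
      field_simp
      ring
    rw [this, Real.rpow_one]
  obtain ⟨N, hN⟩ := exists_nat_gt (32 * ((e : ℝ) + 2) / r)
  have hNr : 32 * ((e : ℝ) + 2) < N * r := (div_lt_iff₀ hr0).1 hN
  have hNbig : 32 * ((e : ℝ) + 2) < N := by
    have : (N : ℝ) * r ≤ N := mul_le_of_le_one_right (Nat.cast_nonneg _) hr1
    linarith
  have hN0 : (0 : ℝ) < N := by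
    have : (0 : ℝ) ≤ e := Nat.cast_nonneg e
    linarith
  set M : ℕ := ⌊r / 8 * N⌋₊ with hM
  have hM1 : (M : ℝ) ≤ r / 8 * N := Nat.floor_le (by positivity)
  have hM2 : r / 8 * N < M + 1 := Nat.lt_floor_add_one _
  have hMN : M ≤ N := by
    have : (M : ℝ) ≤ N := by nlinarith
    exact_mod_cast this
  obtain ⟨A, B, hdis, hA, hB, hgp, hbad, hloss⟩ := Pool.Agent.TH364.Kir.construct e M (N - M)
  rw [Nat.add_sub_cancel' hMN] at hA hB hbad
  have hgood := Pool.Agent.TH364.Kir.bad_add_good hd hdis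
  have hXc : (A ∪ B).card = 2 * N := by
    rw [card_union_of_disjoint hdis, hA, hB]; ring
  rw [hXc] at hgood
  have hgoodR : ((Pool.Agent.TH364.Kir.badSets A (A ∪ B)).card : ℝ) + ((goodSets A B).card : ℝ) =
      ((2 * N).choose (e + 3) : ℝ) := by exact_mod_cast hgood
  have hbadR : ((Pool.Agent.TH364.Kir.badSets A (A ∪ B)).card : ℝ) ≤
      ((2 * M).choose (e + 2) : ℝ) * (2 * N) := by exact_mod_cast hbad
  have hf2 : (0 : ℝ) < ((e + 2).factorial : ℝ) := by exact_mod_cast Nat.factorial_pos _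
  have hf3 : ((e + 3).factorial : ℝ) = (e + 3) * (e + 2).factorial := by
    rw [Nat.factorial_succ]; push_cast; ring
  have h1 : ((2 * M).choose (e + 2) : ℝ) ≤ (2 * M : ℝ) ^ (e + 2) / (e + 2).factorial := by
    have := Nat.choose_le_pow_div (α := ℝ) (e + 2) (2 * M)
    push_cast at this
    exact this
  have h2 : (N : ℝ) ^ (e + 3) ≤ (e + 3).factorial * ((2 * N).choose (e + 3) : ℝ) := by
    have h3 : (((2 * N + 1 - (e + 3) : ℕ) : ℝ) ^ (e + 3)) ≤
        (e + 3).factorial * ((2 * N).choose (e + 3) : ℝ) := by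
      exact_mod_cast Nat.pow_sub_le_descFactorial (2 * N) (e + 3) |>.trans
        (le_of_eq (Nat.descFactorial_eq_factorial_mul_choose (2 * N) (e + 3)))
    refine le_trans ?_ h3
    have h4 : N ≤ 2 * N + 1 - (e + 3) := by
      have h5 : 32 * (e + 2) < N := by exact_mod_cast hNbig
      omega
    exact pow_le_pow_left₀ hN0.le (by exact_mod_cast h4) _
  have h2M : (2 * M : ℝ) ≤ r / 4 * N := by linarith
  have hpow4 : ((e : ℝ) + 3) * 2 ≤ 4 ^ (e + 2) := by
    have : (e + 3) * 2 ≤ 4 ^ (e + 2) := by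
      clear_value r M
      clear * -
      induction e with
      | zero => norm_num
      | succ e ih => rw [pow_succ]; omega
    exact_mod_cast this
  have hkey : ((Pool.Agent.TH364.Kir.badSets A (A ∪ B)).card : ℝ) ≤
      ε * ((2 * N).choose (e + 3) : ℝ) := by
    have h6 : (2 * M : ℝ) ^ (e + 2) ≤ (r / 4 * N) ^ (e + 2) :=
      pow_le_pow_left₀ (by positivity) h2M _
    have h7 : (r / 4 * N) ^ (e + 2) = ε * (N : ℝ) ^ (e + 2) / 4 ^ (e + 2) := by
      rw [mul_pow, div_pow, hrε]; ring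
    have h8 : ((2 * M).choose (e + 2) : ℝ) * (2 * N) ≤
        (ε * (N : ℝ) ^ (e + 2) / 4 ^ (e + 2)) / (e + 2).factorial * (2 * N) := by
      refine mul_le_mul_of_nonneg_right (h1.trans ?_) (by positivity)
      rw [← h7]
      exact div_le_div_of_nonneg_right h6 hf2.le
    have h9 : (ε * (N : ℝ) ^ (e + 2) / 4 ^ (e + 2)) / (e + 2).factorial * (2 * N) =
        ε * (N : ℝ) ^ (e + 3) * (2 / (4 ^ (e + 2) * (e + 2).factorial)) := by
      rw [pow_succ (N : ℝ) (e + 2)]; field_simp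
    have h10 : (2 : ℝ) / (4 ^ (e + 2) * (e + 2).factorial) ≤ 1 / (e + 3).factorial := by
      rw [hf3, div_le_div_iff₀ (by positivity) (by positivity)]
      nlinarith
    calc ((Pool.Agent.TH364.Kir.badSets A (A ∪ B)).card : ℝ)
        ≤ ε * (N : ℝ) ^ (e + 3) * (2 / (4 ^ (e + 2) * (e + 2).factorial)) := by
          rw [← h9]; exact hbadR.trans h8
      _ ≤ ε * (N : ℝ) ^ (e + 3) * (1 / (e + 3).factorial) :=
          mul_le_mul_of_nonneg_left h10 (by positivity)
      _ ≤ ε * ((e + 3).factorial * ((2 * N).choose (e + 3) : ℝ)) * (1 / (e + 3).factorial) := by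
          refine mul_le_mul_of_nonneg_right ?_ (by positivity)
          exact mul_le_mul_of_nonneg_left h2 hε.le
      _ = ε * ((2 * N).choose (e + 3) : ℝ) := by
          have : ((e + 3).factorial : ℝ) ≠ 0 := by positivity
          field_simp
  obtain ⟨A', hA', B', hB', hsep, hcA, hcB⟩ := hg ε hε N A B
    (by have h5 : 32 * (e + 2) < N := by exact_mod_cast hNbig
        omega) hA hB hdis hgp.genPos (by
      have : ((2 * N).choose (e + 1 + 2) : ℝ) = ((2 * N).choose (e + 3) : ℝ) := rfl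
      rw [this]
      linarith)
  have hl := hloss A' hA' B' hB' hsep
  have hlR : (M : ℝ) ≤ ((A \ A').card : ℝ) + ((B \ B').card : ℝ) + (e + 1) := by exact_mod_cast hl
  have hAs : ((A \ A').card : ℝ) = N - A'.card := by
    rw [card_sdiff_of_subset hA', Nat.cast_sub (card_le_card hA'), hA]
  have hBs : ((B \ B').card : ℝ) = N - B'.card := by
    rw [card_sdiff_of_subset hB', Nat.cast_sub (card_le_card hB'), hB]
  rw [hAs, hBs] at hlR
  have hfin : r / 8 * N - 1 - (e + 1) ≤ 2 * (g ε * N) := by linarith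
  have hfin2 : r / 16 * N ≤ 2 * (g ε * N) := by
    have : (e : ℝ) + 2 ≤ r / 32 * N := by nlinarith
    nlinarith
  have hfin3 : (1 / 32 * r) * N ≤ g ε * N := by linarith
  exact le_of_mul_le_mul_right hfin3 hN0

/-- **Positive-fraction Kirchberger theorem.** For every `d ≥ 1` some admissible `g` tends to `0` at
`0`; explicitly `g ε = 4 (d+1) (d+2) ε^{1/(d+1)}` is admissible, and this order is best possible:
every admissible `g` satisfies `g ε ≥ ε^{1/(d+1)} / 32` for `0 < ε ≤ 1`. -/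
theorem result : ∀ d : ℕ, 1 ≤ d →
    (∃ g : ℝ → ℝ, Tendsto g (𝓝[>] 0) (𝓝 0) ∧ Admissible d g) ∧
    Admissible d (fun ε => 4 * (d + 1) * (d + 2) * ε ^ (1 / ((d : ℝ) + 1))) ∧
    ∀ g : ℝ → ℝ, Admissible d g → ∀ ε : ℝ, 0 < ε → ε ≤ 1 →
      1 / 32 * ε ^ (1 / ((d : ℝ) + 1)) ≤ g ε := by
  intro d hd
  have hup : Admissible d (fun ε => 4 * (d + 1) * (d + 2) * ε ^ (1 / ((d : ℝ) + 1))) := by
    intro ε hε N A B hN hA hB hdis hgp hgood
    exact Pool.Agent.TH364.Kir.upper hd hε.le N A B hdis hA hB hgp hN hgood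
  refine ⟨⟨_, ?_, hup⟩, hup, fun g hg ε hε hε1 => lower d hd g hg ε hε hε1⟩
  have hpos : (0 : ℝ) < 1 / ((d : ℝ) + 1) := by positivity
  have hc : Continuous (fun ε : ℝ => 4 * ((d : ℝ) + 1) * (d + 2) * ε ^ (1 / ((d : ℝ) + 1))) :=
    continuous_const.mul (Real.continuous_rpow_const hpos.le)
  have h0 := hc.tendsto 0
  simp only [Real.zero_rpow hpos.ne', mul_zero] at h0
  exact h0.mono_left nhdsWithin_le_nhds

end Pool.Agent.Results.MP_ff3a4f_co.KirchbergerSharp
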